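import Pool.Agent.Helper98.QR.StmtsE

/-!
# Row E07 of QR: the glueing of a regular pair
-/

namespace QR

namespace H74

open Classical

variable {V W : Type} {G : BGraph V} {G' : BGraph W}

/-- the summand of the glueing -/
noncomputable def fE (G' : BGraph W) (u v : W) : ℕ :=
  G'.c u v - (if ∃ i : ℤ, (G'.b i = u ∧ G'.b (i + 1) = v) ∨ (G'.b i = v ∧ G'.b (i + 1) = u)
    then 1 else 0)

theorem glueC_eq (G : BGraph V) (G' : BGraph W) (x y : V ⊕ W) :
    glueC G G' x y = (match x, y with
      | Sum.inl u, Sum.inl v => G.c u v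
      | _, _ => 0) +
      ∑ᶠ (u : W) (v : W), if gluePt G G' u = x ∧ gluePt G G' v = y then fE G' u v else 0 := by
  rfl

theorem pt_b (h : RegP G G') (i : ℤ) : gluePt G G' (G'.b (1 - i)) = Sum.inl (G.b i) := by
  have hex : ∃ j : ℤ, G'.b (1 - j) = G'.b (1 - i) := ⟨i, rfl⟩
  unfold gluePt
  rw [dif_pos hex]
  congr 1
  exact (h.glue _ _).2 hex.choose_spec

theorem pt_not (w : W) (hw : w ∉ Set.range G'.b) : gluePt G G' w = Sum.inr w := by
  unfold gluePt
  rw [dif_neg]
  rintro ⟨i, hi⟩
  exact hw ⟨_, hi⟩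

theorem range_iff (w : W) : w ∈ Set.range G'.b ↔ ∃ i : ℤ, G'.b (1 - i) = w := by
  constructor
  · rintro ⟨i, hi⟩
    exact ⟨1 - i, by rw [sub_sub_cancel]; exact hi⟩
  · rintro ⟨i, hi⟩
    exact ⟨_, hi⟩

theorem pt_inj (h : RegP G G') : Function.Injective (gluePt G G') := by
  intro u v huv
  by_cases hu : u ∈ Set.range G'.b
  · obtain ⟨i, rfl⟩ := (range_iff u).1 hu
    by_cases hv : v ∈ Set.range G'.b
    · obtain ⟨j, rfl⟩ := (range_iff v).1 hv
      rw [pt_b h, pt_b h] at huv
      exact (h.glue i j).1 (Sum.inl_injective huv)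
    · rw [pt_b h, pt_not v hv] at huv
      exact absurd huv (by simp)
  · by_cases hv : v ∈ Set.range G'.b
    · obtain ⟨j, rfl⟩ := (range_iff v).1 hv
      rw [pt_b h, pt_not u hu] at huv
      exact absurd huv (by simp)
    · rw [pt_not u hu, pt_not v hv] at huv
      exact Sum.inr_injective huv

theorem sum_pt (h : RegP G G') (f : W → W → ℕ) (u0 v0 : W) :
    (∑ᶠ (u : W) (v : W), if gluePt G G' u = gluePt G G' u0 ∧ gluePt G G' v = gluePt G G' v0
      then f u v else 0) = f u0 v0 := by
  rw [finsum_eq_single _ u0, finsum_eq_single _ v0]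
  · simp
  · intro v hv
    rw [if_neg]
    rintro ⟨_, h2⟩
    exact hv (pt_inj h h2)
  · intro u hu
    refine (finsum_congr fun v => ?_).trans finsum_zero
    rw [if_neg]
    rintro ⟨h1, _⟩
    exact hu (pt_inj h h1)

theorem sum_z1 (f : W → W → ℕ) (x y : V ⊕ W) (hx : ∀ u, gluePt G G' u ≠ x) :
    (∑ᶠ (u : W) (v : W), if gluePt G G' u = x ∧ gluePt G G' v = y then f u v else 0) = 0 := by
  refine (finsum_congr fun u => (finsum_congr fun v => ?_).trans finsum_zero).trans finsum_zero
  rw [if_neg]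
  rintro ⟨h1, _⟩
  exact hx u h1

theorem sum_z2 (f : W → W → ℕ) (x y : V ⊕ W) (hy : ∀ u, gluePt G G' u ≠ y) :
    (∑ᶠ (u : W) (v : W), if gluePt G G' u = x ∧ gluePt G G' v = y then f u v else 0) = 0 := by
  refine (finsum_congr fun u => (finsum_congr fun v => ?_).trans finsum_zero).trans finsum_zero
  rw [if_neg]
  rintro ⟨_, h1⟩
  exact hy v h1

theorem fE_symm (h : RegP G G') (u v : W) : fE G' u v = fE G' v u := by
  unfold fE
  rw [h.symm2 u v]
  congr 1
  refine if_congr ⟨?_, ?_⟩ rfl rfl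
  · rintro ⟨i, hi | hi⟩
    · exact ⟨i, Or.inr hi⟩
    · exact ⟨i, Or.inl hi⟩
  · rintro ⟨i, hi | hi⟩
    · exact ⟨i, Or.inr hi⟩
    · exact ⟨i, Or.inl hi⟩

theorem fE_not1 (u v : W) (hv : v ∉ Set.range G'.b) : fE G' u v = G'.c u v := by
  unfold fE
  rw [if_neg, Nat.sub_zero]
  rintro ⟨i, hi | hi⟩
  · exact hv ⟨_, hi.2⟩
  · exact hv ⟨_, hi.1⟩

theorem fE_le (u v : W) : fE G' u v ≤ G'.c u v := Nat.sub_le _ _

theorem no_inr (h : RegP G G') (w : W) (hw : w ∈ Set.range G'.b) (u : W) :
    gluePt G G' u ≠ Sum.inr w := by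
  intro he
  by_cases hu : u ∈ Set.range G'.b
  · obtain ⟨i, rfl⟩ := (range_iff u).1 hu
    rw [pt_b h] at he
    exact absurd he (by simp)
  · rw [pt_not u hu] at he
    exact hu (by rw [Sum.inr_injective he]; exact hw)

theorem no_inl (h : RegP G G') (v : V) (hv : v ∉ Set.range G.b) (u : W) :
    gluePt G G' u ≠ Sum.inl v := by
  intro he
  by_cases hu : u ∈ Set.range G'.b
  · obtain ⟨i, rfl⟩ := (range_iff u).1 hu
    rw [pt_b h] at he
    exact hv ⟨i, Sum.inl_injective he⟩
  · rw [pt_not u hu] at he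
    exact absurd he (by simp)

end H74

open H74 Classical

theorem st_E07 : ST_E07 := by
  intro V W G G' h
  refine ⟨pt_b h, pt_not, ?_, ?_, ?_, ?_, ?_, ?_, ?_, ?_, ?_⟩
  · -- symmetry
    intro x y
    rw [glueC_eq, glueC_eq]
    have hs : ((∑ᶠ (u : W) (v : W), if gluePt G G' u = x ∧ gluePt G G' v = y then fE G' u v else 0)
        : ℕ) = ∑ᶠ (u : W) (v : W), if gluePt G G' u = y ∧ gluePt G G' v = x then fE G' u v else 0 := by
      by_cases hx : ∃ u, gluePt G G' u = x
      · by_cases hy : ∃ u, gluePt G G' u = y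
        · obtain ⟨u, rfl⟩ := hx
          obtain ⟨v, rfl⟩ := hy
          rw [sum_pt h, sum_pt h, fE_symm h]
        · push Not at hy
          rw [sum_z2 _ _ _ hy, sum_z1 _ _ _ hy]
      · push Not at hx
        rw [sum_z1 _ _ _ hx, sum_z2 _ _ _ hx]
    rw [hs]
    congr 1
    rcases x with u | w <;> rcases y with v | w'
    · exact h.symm1 u v
    · rfl
    · rfl
    · rfl
  · -- local finiteness
    intro x
    have hA : ({y : V ⊕ W | (match x, y with
      | Sum.inl u, Sum.inl v => G.c u v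
      | _, _ => 0) ≠ 0}).Finite := by
      rcases x with u | w
      · refine ((h.fin1 u).image Sum.inl).subset ?_
        rintro (v | w) hy
        · exact ⟨v, hy, rfl⟩
        · exact absurd rfl hy
      · refine Set.finite_empty.subset ?_
        rintro (v | w) hy
        · exact absurd rfl hy
        · exact absurd rfl hy
    have hB : ({y : V ⊕ W | (∑ᶠ (u : W) (v : W),
        if gluePt G G' u = x ∧ gluePt G G' v = y then fE G' u v else 0) ≠ 0}).Finite := by
      by_cases hx : ∃ u, gluePt G G' u = x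
      · obtain ⟨u, rfl⟩ := hx
        refine ((h.fin2 u).image (gluePt G G')).subset ?_
        intro y hy
        by_cases hy' : ∃ v, gluePt G G' v = y
        · obtain ⟨v, rfl⟩ := hy'
          refine ⟨v, ?_, rfl⟩
          have hy2 : (∑ᶠ (u' : W) (v' : W),
            if gluePt G G' u' = gluePt G G' u ∧ gluePt G G' v' = gluePt G G' v
              then fE G' u' v' else 0) ≠ 0 := hy
          rw [sum_pt h] at hy2
          intro h0
          exact hy2 (Nat.le_zero.1 ((fE_le u v).trans (le_of_eq h0)))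
        · push Not at hy'
          exact absurd (sum_z2 _ _ _ hy') hy
      · push Not at hx
        refine Set.finite_empty.subset ?_
        intro y hy
        exact absurd (sum_z1 _ _ _ hx) hy
    refine (hA.union hB).subset ?_
    intro y hy
    by_contra hc
    rw [Set.mem_union, not_or] at hc
    obtain ⟨hc1, hc2⟩ := hc
    simp only [Set.mem_ofPred_eq, not_not] at hc1 hc2
    apply hy
    rw [glueC_eq, hc2, add_zero]
    exact hc1
  · intro u v
    rw [glueC_eq]
    exact Nat.le_add_right _ _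
  · intro w hw x
    rw [glueC_eq, sum_z1 _ _ _ (no_inr h w hw)]
  · intro w w' hw hw'
    rw [glueC_eq]
    conv_lhs =>
      rw [← pt_not (G := G) w hw, ← pt_not (G := G) w' hw']
    rw [sum_pt h, fE_not1 _ _ hw', pt_not w hw]
    simp
  · intro i w hw
    rw [glueC_eq]
    have := sum_pt h (fE G') (G'.b (1 - i)) w
    rw [pt_b h, pt_not w hw] at this
    rw [this, fE_not1 _ _ hw]
    simp
  · intro u w hu
    rw [glueC_eq, sum_z1 _ _ _ (no_inl h u hu)]
  · intro u v hu
    rw [glueC_eq, sum_z1 _ _ _ (no_inl h u hu), add_zero]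
  · intro i j
    rw [glueC_eq]
    have := sum_pt h (fE G') (G'.b (1 - i)) (G'.b (1 - j))
    rw [pt_b h, pt_b h] at this
    rw [this]
    unfold fE
    congr 2
    refine if_congr ⟨?_, ?_⟩ rfl rfl
    · rintro ⟨k, hk | hk⟩
      · -- `b' k = b'(1-i)`, `b'(k+1) = b'(1-j)`
        right
        have e1 := h.per2 k (1 - i) 1 hk.1
        have e2 : G'.b (1 - (i - 1)) = G'.b (1 - j) := by
          rw [← hk.2, e1]; congr 1; ring
        have e3 := (h.glue (i - 1) j).2 e2
        have e4 := h.per1 _ _ 1 e3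
        rw [sub_add_cancel] at e4
        exact e4.symm
      · left
        have e1 := h.per2 k (1 - j) 1 hk.1
        have e2 : G'.b (1 - (j - 1)) = G'.b (1 - i) := by
          rw [← hk.2, e1]; congr 1; ring
        have e3 := (h.glue (j - 1) i).2 e2
        have e4 := h.per1 _ _ 1 e3
        rw [sub_add_cancel] at e4
        exact e4.symm
    · rintro (hk | hk)
      · refine ⟨1 - j, Or.inr ⟨rfl, ?_⟩⟩
        have e1 := h.per1 _ _ (-1) hk
        have e2 : G.b (j - 1) = G.b i := by
          rw [show j - 1 = j + -1 by ring, ← e1]; congr 1; ring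
        have e3 := (h.glue (j - 1) i).1 e2
        rw [← e3]; congr 1; ring
      · refine ⟨1 - i, Or.inl ⟨rfl, ?_⟩⟩
        have e1 := h.per1 _ _ (-1) hk
        have e2 : G.b (i - 1) = G.b j := by
          rw [show i - 1 = i + -1 by ring, ← e1]; congr 1; ring
        have e3 := (h.glue (i - 1) j).1 e2
        rw [← e3]; congr 1; ring

end QR
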